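import Pool.Agent.Lib.MP_179850_al.Loop

/-! Automorphism groups of the free metabelian group of rank four: no finite presentation, and no
finite presentation of the augmentation ideal. -/

set_option autoImplicit false

namespace Pool.Agent.Results.MP_179850_al.RankFourHomol

universe u v w

open Pool.Agent.Lib.MP_179850_al in
/-- Let `M` be a quotient of the free group `F` of rank four by `[[F, F], [F, F]]`. Then the
automorphism group of `M` is not finitely presented. Moreover there are four automorphisms, trivial
on the abelianization, such that for every subgroup `Γ` of `Aut M` containing them and every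
quotient `Q` of `Γ` by a group of inner automorphisms, `Q` is not finitely presented and the
augmentation ideal of `k[Q]` is not a finitely presented left module, for every nonzero commutative
ring `k`. -/
theorem result (M : Type u) [Group M] (π : FreeGroup (Fin 4) →* M) (hπ : Function.Surjective π)
    (hker : π.ker = ⁅commutator (FreeGroup (Fin 4)), commutator (FreeGroup (Fin 4))⁆) :
    ¬ Group.IsFinitelyPresented (MulAut M) ∧
    ∃ t : Fin 4 → MulAut M, (∀ i x, t i x * x⁻¹ ∈ commutator M) ∧
      ∀ Γ : Subgroup (MulAut M), (∀ i, t i ∈ Γ) →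
        ∀ (Q : Type v) [Group Q] (q : Γ →* Q), Function.Surjective q →
          (∀ γ : Γ, q γ = 1 → ∃ m : M, (γ : MulAut M) = MulAut.conj m) →
          ¬ Group.IsFinitelyPresented Q ∧
          ∀ (k : Type w) [CommRing k] [Nontrivial k],
            ¬ Module.FinitePresentation (MonoidAlgebra k Q)
              (RingHom.ker (MonoidAlgebra.lift k k Q 1)) := by
  have e1 : derivedSeries (FreeGroup (Fin 4)) 2 = π.ker := hker.symm
  let e : M ≃* (FreeGroup (Fin 4) ⧸ derivedSeries (FreeGroup (Fin 4)) 2) :=
    ((QuotientGroup.quotientMulEquivOfEq e1).trans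
      (QuotientGroup.quotientKerEquivOfSurjective π hπ)).symm
  refine ⟨fun h => ?_, ?_⟩
  · obtain ⟨m, f, hf, S, hS, hk⟩ := (Group.IsFinitelyPresented.equiv (MulAut.congr e)).out
    exact not_fp f hf hS.toFinset (by rw [hS.coe_toFinset, hk])
  obtain ⟨a, b, c, d, h1, h2⟩ := no_coc.{u, v, w}
  refine ⟨fun i => (MulAut.congr e).symm (![a, b, c, d] i), fun i x => ?_,
    fun Γ hΓ Q _ q hq hk => ?_⟩
  · have := Subgroup.mem_map_of_mem e.symm.toMonoidHom
      (h1 (![a, b, c, d] i) (by fin_cases i <;> simp) (e x))
    rw [map_commutator_eq, MonoidHom.range_eq_top.2 e.symm.surjective, map_mul, map_inv] at this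
    exact (congrArg (fun z => e.symm (![a, b, c, d] i (e x)) * z⁻¹ ∈ commutator M)
      (e.symm_apply_apply x)).mp this
  have h3 := h2 Γ ((MulAut.congr e).toMonoidHom.comp Γ.subtype)
    ((MulAut.congr e).injective.comp Subtype.val_injective)
    (by
      have h4 := fun i => (⟨⟨_, hΓ i⟩, (MulAut.congr e).apply_symm_apply _⟩ :
        ![a, b, c, d] i ∈ ((MulAut.congr e).toMonoidHom.comp Γ.subtype).range)
      simpa only [List.forall_mem_cons] using ⟨h4 0, h4 1, h4 2, h4 3, by simp⟩) Q q hq
    fun γ h => by
      obtain ⟨m, hm⟩ := hk γ h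
      refine ⟨e m, MulEquiv.ext fun x => ?_⟩
      change e ((γ : MulAut M) (e.symm x)) = _
      rw [hm, MulAut.conj_apply, MulAut.conj_apply, e.map_mul, e.map_mul, map_inv e,
        e.apply_symm_apply]
  refine ⟨fun h => ?_, fun k _ _ h => ?_⟩
  · obtain ⟨L, _, s, h4, T, h5⟩ := h3 (ULift ℤ)
    obtain ⟨p, hp⟩ := (coc_of_fp s h4 h T).exists
    exact h5 p hp
  · obtain ⟨L, _, s, h4, T, h5⟩ := h3 k
    obtain ⟨p, hp⟩ := (coc_of_fp2 s h4 h T).exists
    exact h5 p hp

end Pool.Agent.Results.MP_179850_al.RankFourHomol
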